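import Pool.Agent.Helper95.KN.FPoly

set_option autoImplicit false

/-! Counting crossing changes with a given value of `f` by the odd writhe. -/

namespace Pool.Agent.Helper16.Knotoid

open LaurentPolynomial

theorem eq_zero_of_sq_dvd {a : ℤ} (h : (T 2 + 1 : LaurentPolynomial ℤ) ^ 2 ∣ C (2 * a) * (T 2 + 1)) :
    a = 0 := by
  obtain ⟨g, hg⟩ := h
  have hne : (T 2 + 1 : LaurentPolynomial ℤ) ≠ 0 := by
    intro h
    have h1 : (T 2 + 1 : LaurentPolynomial ℤ).coeff 2 = 1 := by
      have h2 : ∀ p q : LaurentPolynomial ℤ, (p + q).coeff 2 = p.coeff 2 + q.coeff 2 :=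
        fun _ _ => rfl
      rw [h2, T_apply, ← T_zero, T_apply]
      simp
    rw [h] at h1
    exact absurd h1 (by simp)
  have h3 : (T 2 + 1) * (C (2 * a)) = (T 2 + 1) * ((T 2 + 1) * g) := by
    linear_combination hg
  have h4 := mul_left_cancel₀ hne h3
  have hI : Complex.I * -Complex.I = 1 := by
    rw [mul_neg, Complex.I_mul_I, neg_neg]
  have hI' : -Complex.I * Complex.I = 1 := by
    rw [mul_comm, hI]
  have h5 := congrArg (eval₂ (Int.castRingHom ℂ) (⟨Complex.I, -Complex.I, hI, hI'⟩ : ℂˣ)) h4
  rw [eval₂_C, map_mul, map_mul, map_add, eval₂_T, map_one] at h5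
  have h6 : (((⟨Complex.I, -Complex.I, hI, hI'⟩ : ℂˣ) ^ (2 : ℤ) : ℂˣ) : ℂ) = -1 := by
    have h7 : ((⟨Complex.I, -Complex.I, hI, hI'⟩ : ℂˣ) ^ (2 : ℤ) : ℂˣ) =
      (⟨Complex.I, -Complex.I, hI, hI'⟩ : ℂˣ) ^ (2 : ℕ) := by
      rw [← zpow_natCast]
      rfl
    rw [h7, Units.val_pow_eq_pow_val]
    exact Complex.I_sq
  rw [h6, neg_add_cancel, zero_mul] at h5
  simpa using h5

theorem two_choose_le {k : ℕ} (hk : 0 < k) (j : ℕ) : 2 * k.choose j ≤ 2 ^ k := by
  obtain ⟨m, rfl⟩ : ∃ m, k = m + 1 := ⟨k - 1, by omega⟩
  have hpos : 1 ≤ 2 ^ m := Nat.one_le_two_pow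
  have h : (m + 1).choose j ≤ 2 ^ m := by
    rcases j with _ | j
    · simpa using hpos
    · rw [Nat.choose_succ_succ]
      by_cases hj : j + 1 ≤ m
      · rw [← Nat.sum_range_choose m]
        have h1 : ({j, j + 1} : Finset ℕ) ⊆ Finset.range (m + 1) := by
          intro x hx
          simp only [Finset.mem_insert, Finset.mem_singleton] at hx
          rw [Finset.mem_range]
          omega
        have h2 := Finset.sum_le_sum_of_subset (f := fun i => m.choose i) h1
        rw [Finset.sum_pair (by omega)] at h2
        exact h2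
      · have h2 : m.choose (j + 1) = 0 := Nat.choose_eq_zero_of_lt (by omega)
        rw [h2, add_zero]
        by_cases hj' : j = m
        · rw [hj', Nat.choose_self]
          exact hpos
        · rw [Nat.choose_eq_zero_of_lt (by omega)]
          exact Nat.zero_le _
  rw [pow_succ']
  exact Nat.mul_le_mul_left 2 h

namespace GaussDiagram

variable {n : ℕ} (D : GaussDiagram n)

theorem oddWrithe_eq_of_eq (D D' : GaussDiagram n)
    (h : D.normalizedBracket = D'.normalizedBracket) : D.oddWrithe = D'.oddWrithe := by
  have h1 := dvd_sub D.f_congr D'.f_congr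
  rw [h] at h1
  have h2 : D'.normalizedBracket - 1 - C (2 * D.oddWrithe) * (T 2 + 1) -
      (D'.normalizedBracket - 1 - C (2 * D'.oddWrithe) * (T 2 + 1)) =
      C (2 * (D'.oddWrithe - D.oddWrithe)) * (T 2 + 1) := by
    have h3 : (C (2 * (D'.oddWrithe - D.oddWrithe)) : LaurentPolynomial ℤ) =
        C (2 * D'.oddWrithe) - C (2 * D.oddWrithe) := by
      rw [← map_sub]
      congr 1
      ring
    rw [h3]
    ring
  rw [h2] at h1
  have h4 := eq_zero_of_sq_dvd h1
  omega

open Classical in
/-- The odd crossings. -/
noncomputable def odds : Finset (Fin n) := Finset.univ.filter D.OddCrossing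

theorem oddWrithe_switch (e : Fin n → Bool) : (D.switch e).oddWrithe =
    2 * ((D.odds.filter fun c => (D.sign c ^^ e c) = true).card : ℤ) - D.odds.card := by
  classical
  unfold oddWrithe
  have h1 : ∀ c, (if (D.switch e).OddCrossing c then
      (if (D.switch e).sign c = true then (1 : ℤ) else -1) else 0) =
      if D.OddCrossing c then (2 * (if (D.sign c ^^ e c) = true then (1 : ℤ) else 0) - 1)
        else 0 := by
    intro c
    rw [D.switch_odd e c]
    show (if D.OddCrossing c then (if (D.sign c ^^ e c) = true then (1 : ℤ) else -1) else 0) = _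
    split_ifs <;> norm_num
  rw [Finset.sum_congr rfl (fun c _ => h1 c), ← Finset.sum_filter, Finset.sum_sub_distrib,
    ← Finset.mul_sum, ← Finset.sum_filter]
  simp [odds]

/-- Crossing changes in `S` with a given value of `f`. -/
theorem card_le (S : Finset (Fin n)) (e₀ : Fin n → Bool) (P : LaurentPolynomial ℤ) :
    Nat.card {e : Fin n → Bool // (∀ i ∉ S, e i = e₀ i) ∧ (D.switch e).normalizedBracket = P} ≤
      ((D.odds ∩ S).card.choose ((D.odds ∩ S).card / 2)) * 2 ^ (S.card - (D.odds ∩ S).card) := by
  classical
  by_cases hne : ∃ e₁ : Fin n → Bool, (∀ i ∉ S, e₁ i = e₀ i) ∧ (D.switch e₁).normalizedBracket = P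
  · obtain ⟨e₁, h1, h2⟩ := hne
    set O := D.odds ∩ S with hO
    set j := (O.filter fun c => (D.sign c ^^ e₁ c) = true).card with hj
    have hmem : ∀ e : Fin n → Bool, (∀ i ∉ S, e i = e₀ i) ∧ (D.switch e).normalizedBracket = P →
        (O.filter fun c => (D.sign c ^^ e c) = true).card = j := by
      rintro e ⟨h3, h4⟩
      have h5 := oddWrithe_eq_of_eq _ _ (h4.trans h2.symm)
      rw [oddWrithe_switch, oddWrithe_switch] at h5
      have h6 : ∀ e' : Fin n → Bool, (D.odds.filter fun c => (D.sign c ^^ e' c) = true).card =
          (O.filter fun c => (D.sign c ^^ e' c) = true).card +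
          ((D.odds \ S).filter fun c => (D.sign c ^^ e' c) = true).card := by
        intro e'
        rw [← Finset.card_union_of_disjoint, ← Finset.filter_union]
        · congr 2
          rw [hO]
          ext c
          simp only [Finset.mem_union, Finset.mem_inter, Finset.mem_sdiff]
          tauto
        · apply Finset.disjoint_filter_filter
          rw [Finset.disjoint_left]
          intro c hc hc'
          simp only [hO, Finset.mem_inter, Finset.mem_sdiff] at hc hc'
          exact hc'.2 hc.2
      have h7 : ((D.odds \ S).filter fun c => (D.sign c ^^ e c) = true) =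
          ((D.odds \ S).filter fun c => (D.sign c ^^ e₁ c) = true) := by
        apply Finset.filter_congr
        intro c hc
        rw [Finset.mem_sdiff] at hc
        rw [h3 c hc.2, h1 c hc.2]
      rw [h6 e, h6 e₁, h7] at h5
      push_cast at h5
      omega
    rw [Nat.card_eq_fintype_card]
    have hinj : Fintype.card {e : Fin n → Bool // (∀ i ∉ S, e i = e₀ i) ∧
        (D.switch e).normalizedBracket = P} ≤
        ((Finset.powersetCard j O) ×ˢ (S \ O).powerset).card := by
      rw [← Fintype.card_coe]
      refine Fintype.card_le_of_injective (fun e => ⟨(O.filter fun c => (D.sign c ^^ e.1 c) = true,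
        (S \ O).filter fun c => e.1 c = true), ?_⟩) ?_
      · rw [Finset.mem_product, Finset.mem_powersetCard, Finset.mem_powerset]
        exact ⟨⟨Finset.filter_subset _ _, hmem e.1 e.2⟩, Finset.filter_subset _ _⟩
      · rintro ⟨e, he⟩ ⟨e', he'⟩ h
        simp only [Subtype.mk.injEq, Prod.mk.injEq] at h
        apply Subtype.ext
        funext c
        show e c = e' c
        by_cases hS : c ∈ S
        · by_cases hc : c ∈ O
          · have h3 := Finset.ext_iff.1 h.1 c
            simp only [Finset.mem_filter, hc, true_and] at h3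
            revert h3
            cases D.sign c <;> cases e c <;> cases e' c <;> simp
          · have h3 := Finset.ext_iff.1 h.2 c
            simp only [Finset.mem_filter, Finset.mem_sdiff, hS, hc, not_false_eq_true, and_self,
              true_and] at h3
            revert h3
            cases e c <;> cases e' c <;> simp
        · rw [he.1 c hS, he'.1 c hS]
    refine hinj.trans ?_
    rw [Finset.card_product, Finset.card_powersetCard, Finset.card_powerset]
    refine Nat.mul_le_mul (Nat.choose_le_middle _ _) ?_
    rw [Finset.card_sdiff_of_subset (by rw [hO]; exact Finset.inter_subset_right)]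
  · have : IsEmpty {e : Fin n → Bool // (∀ i ∉ S, e i = e₀ i) ∧
        (D.switch e).normalizedBracket = P} := ⟨fun e => hne ⟨e.1, e.2⟩⟩
    rw [Nat.card_of_isEmpty]
    exact Nat.zero_le _

/-- If tail and head are in different regions, at most half of the crossing choices have a given
`f`. -/
theorem half (h : D.tailRegion ≠ D.headRegion) (P : LaurentPolynomial ℤ) :
    2 * Nat.card {e : Fin n → Bool // (D.switch e).normalizedBracket = P} ≤ 2 ^ n := by
  classical
  have hk : 0 < D.odds.card := by
    rw [Finset.card_pos]
    by_contra hne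
    rw [Finset.not_nonempty_iff_eq_empty] at hne
    apply h
    apply D.region_eq
    intro c hc
    have : c ∈ D.odds := by simp [odds, hc]
    rw [hne] at this
    simp at this
  have h1 := D.card_le Finset.univ (fun _ => false) P
  simp only [Finset.mem_univ, not_true_eq_false, false_imp_iff, implies_true, true_and,
    Finset.inter_univ, Finset.card_univ, Fintype.card_fin] at h1
  set k := D.odds.card with hkdef
  have hkn : k ≤ n := by
    have := Finset.card_le_univ D.odds
    rwa [Fintype.card_fin] at this
  have h2 : 2 * k.choose (k / 2) ≤ 2 ^ k := two_choose_le hk _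
  calc 2 * Nat.card {e : Fin n → Bool // (D.switch e).normalizedBracket = P}
      ≤ 2 * (k.choose (k / 2) * 2 ^ (n - k)) := Nat.mul_le_mul_left _ h1
    _ = (2 * k.choose (k / 2)) * 2 ^ (n - k) := by ring
    _ ≤ 2 ^ k * 2 ^ (n - k) := Nat.mul_le_mul_right _ h2
    _ = 2 ^ n := by rw [← pow_add]; congr 1; omega

end GaussDiagram

end Pool.Agent.Helper16.Knotoid
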