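import Pool.Agent.Helper95.KN.Switch

set_option autoImplicit false

/-! The tail edge and the head edge lie on the same component (the interval) of every state, so the
components of a state of the knotoid diagram and of its virtual closure correspond. -/

namespace Pool.Agent.Helper16.Knotoid

open LaurentPolynomial Pool.Agent.GaussJones

namespace GaussDiagram

variable {n : ℕ} (D : GaussDiagram n)

theorem tail_head (s : Fin n → Bool) :
    Quot.mk (D.Join s) (Fin.last (2 * n)) = Quot.mk (D.Join s) 0 := by
  classical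
  set φ : Fin (2 * n + 1) → ZMod 2 :=
    fun j => if Quot.mk (D.Join s) j = Quot.mk (D.Join s) 0 then 1 else 0 with hφ
  have hj : ∀ a b, D.Join s a b → φ a = φ b := by
    intro a b h
    simp only [hφ, Quot.sound h]
  have hz : ∀ a b : ZMod 2, a = b → a + b = 0 := by decide
  have hcross : ∀ c : Fin n, (φ (D.overPass c).castSucc + φ (D.overPass c).succ) +
      (φ (D.underPass c).castSucc + φ (D.underPass c).succ) = 0 := by
    intro c
    by_cases h : s c = D.sign c
    · have h1 := hz _ _ (hj _ _ (Join.oriented₁ c h))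
      have h2 := hz _ _ (hj _ _ (Join.oriented₂ c h))
      linear_combination h1 + h2
    · have h1 := hz _ _ (hj _ _ (Join.unoriented₁ c h))
      have h2 := hz _ _ (hj _ _ (Join.unoriented₂ c h))
      linear_combination h1 + h2
  have hsum : ∑ p : Fin (2 * n), (φ p.castSucc + φ p.succ) = 0 := by
    rw [← Equiv.sum_comp D.pos, Fintype.sum_prod_type]
    apply Finset.sum_eq_zero
    intro c _
    rw [Fintype.sum_bool]
    exact hcross c
  rw [Finset.sum_add_distrib] at hsum
  have h1 := Fin.sum_univ_castSucc φ
  have h2 := Fin.sum_univ_succ φ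
  have h3 : ∀ x : ZMod 2, x + x = 0 := by decide
  have h4 : φ (Fin.last (2 * n)) = φ 0 := by
    have h5 := h3 (∑ j, φ j)
    have h6 : φ (Fin.last (2 * n)) + φ 0 = 0 := by
      nth_rewrite 1 [h1] at h5
      rw [h2] at h5
      linear_combination h5 - hsum
    have h7 : ∀ a b : ZMod 2, a + b = 0 → a = b := by decide
    exact h7 _ _ h6
  have h5 : φ 0 = 1 := by simp [hφ]
  rw [h5] at h4
  by_contra hne
  simp [hφ, hne] at h4

theorem rotate_symm_succ : ∀ (N : ℕ) (p : Fin N),
    (((finRotate N).symm p).succ : Fin (N + 1)) = if (p : ℕ) = 0 then Fin.last N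
      else p.castSucc := by
  rintro (_ | N) p
  · exact p.elim0
  · split_ifs with h
    · have h1 : (finRotate (N + 1)).symm p = Fin.last N := by
        rw [Equiv.symm_apply_eq, finRotate_last]
        exact Fin.ext h
      rw [h1]
      rfl
    · have hp : (p : ℕ) - 1 < N + 1 := by omega
      have h1 : (finRotate (N + 1)).symm p = ⟨p - 1, hp⟩ := by
        rw [Equiv.symm_apply_eq]
        apply Fin.ext
        rw [coe_finRotate_of_ne_last]
        · simp only
          omega
        · intro h2
          have h3 : (p : ℕ) - 1 = N := congrArg Fin.val h2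
          have := p.2
          omega
      rw [h1]
      apply Fin.ext
      simp only [Fin.val_succ, Fin.val_castSucc]
      omega

/-- The number of components of a state of the knotoid diagram is that of the corresponding state
of the virtual closure. -/
theorem comps_eq_loops (hn : 0 < n) (s : Fin n → Bool) :
    D.comps s = GaussJones.loops D.pos (fun c => s c == D.sign c) := by
  set s' : Fin n → Bool := fun c => s c == D.sign c with hs'
  have hs1 : ∀ c, s' c = true ↔ s c = D.sign c := by
    intro c
    simp [hs']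
  have hs2 : ∀ c, s' c = false ↔ s c ≠ D.sign c := by
    intro c
    simp [hs']
  -- the edge arriving at a passage
  have hin : ∀ x : Fin n × Bool,
      Quot.mk (D.Join s) ((inEdge D.pos x).succ) = Quot.mk (D.Join s) ((D.pos x).castSucc) := by
    intro x
    unfold inEdge
    rw [rotate_symm_succ]
    split_ifs with h
    · rw [D.tail_head s]
      congr 1
      exact Fin.ext h.symm
    · rfl
  have hout : ∀ x : Fin n × Bool, (outEdge D.pos x).succ = (D.pos x).succ := fun _ => rfl
  -- from closed edges to edges
  let F : Quot (Joined D.pos s') → Quot (D.Join s) :=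
    Quot.lift (fun p => Quot.mk _ p.succ) (by
      rintro p q ⟨c, h | h⟩
      · obtain ⟨h0, ⟨rfl, rfl⟩ | ⟨rfl, rfl⟩⟩ := h
        · rw [hin, hout]
          exact Quot.sound (Join.oriented₂ c ((hs1 c).1 h0))
        · rw [hin, hout]
          exact Quot.sound (Join.oriented₁ c ((hs1 c).1 h0))
      · obtain ⟨h0, ⟨rfl, rfl⟩ | ⟨rfl, rfl⟩⟩ := h
        · rw [hin, hin]
          exact (Quot.sound (Join.unoriented₁ c ((hs2 c).1 h0))).symm
        · rw [hout, hout]
          exact (Quot.sound (Join.unoriented₂ c ((hs2 c).1 h0))).symm)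
  have hNpos : 2 * n - 1 < 2 * n := by omega
  -- from edges to closed edges
  let q : Fin (2 * n + 1) → Fin (2 * n) := Fin.cases ⟨2 * n - 1, hNpos⟩ (fun p => p)
  have hq0 : q 0 = ⟨2 * n - 1, hNpos⟩ := rfl
  have hqs : ∀ p : Fin (2 * n), q p.succ = p := fun p => rfl
  have hqc : ∀ x : Fin n × Bool, q (D.pos x).castSucc = inEdge D.pos x := by
    intro x
    have h1 := rotate_symm_succ (2 * n) (D.pos x)
    split_ifs at h1 with h
    · have h2 : (D.pos x).castSucc = 0 := Fin.ext h
      rw [h2, hq0]
      unfold inEdge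
      have h3 := congrArg Fin.val h1
      simp only [Fin.val_succ, Fin.val_last] at h3
      apply Fin.ext
      simp only
      omega
    · rw [← h1, hqs]
      rfl
  let H : Quot (D.Join s) → Quot (Joined D.pos s') :=
    Quot.lift (fun j => Quot.mk _ (q j)) (by
      intro a b h
      rcases h with ⟨c, h0⟩ | ⟨c, h0⟩ | ⟨c, h0⟩ | ⟨c, h0⟩
      · show Quot.mk _ (q (D.pos (c, true)).castSucc) = Quot.mk _ (q (D.pos (c, false)).succ)
        rw [hqc, hqs]
        exact Quot.sound ⟨c, Or.inl ⟨(hs1 c).2 h0, Or.inr ⟨rfl, rfl⟩⟩⟩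
      · show Quot.mk _ (q (D.pos (c, false)).castSucc) = Quot.mk _ (q (D.pos (c, true)).succ)
        rw [hqc, hqs]
        exact Quot.sound ⟨c, Or.inl ⟨(hs1 c).2 h0, Or.inl ⟨rfl, rfl⟩⟩⟩
      · show Quot.mk _ (q (D.pos (c, true)).castSucc) = Quot.mk _ (q (D.pos (c, false)).castSucc)
        rw [hqc, hqc]
        exact (Quot.sound ⟨c, Or.inr ⟨(hs2 c).2 h0, Or.inl ⟨rfl, rfl⟩⟩⟩).symm
      · show Quot.mk _ (q (D.pos (c, true)).succ) = Quot.mk _ (q (D.pos (c, false)).succ)
        rw [hqs, hqs]
        exact (Quot.sound ⟨c, Or.inr ⟨(hs2 c).2 h0, Or.inr ⟨rfl, rfl⟩⟩⟩).symm)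
  have hFH : ∀ y, F (H y) = y := by
    intro y
    induction y using Quot.ind with
    | _ j =>
      show Quot.mk _ (q j).succ = Quot.mk _ j
      induction j using Fin.cases with
      | zero =>
        rw [hq0, ← D.tail_head s]
        congr 1
        apply Fin.ext
        simp only [Fin.val_succ, Fin.val_last]
        omega
      | succ p => rw [hqs]
  have hHF : ∀ y, H (F y) = y := by
    intro y
    induction y using Quot.ind with
    | _ p =>
      show Quot.mk _ (q p.succ) = Quot.mk _ p
      rw [hqs]
  unfold comps GaussJones.loops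
  exact Nat.card_congr ⟨H, F, hFH, hHF⟩

end GaussDiagram

end Pool.Agent.Helper16.Knotoid
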