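import Pool.Agent.Helper95.KN.Ends

set_option autoImplicit false

/-! The normalised bracket of a knotoid diagram is `fPoly` of its virtual closure. -/

namespace Pool.Agent.Helper16.Knotoid

open LaurentPolynomial Pool.Agent.GaussJones

namespace GaussDiagram

variable {n : ℕ} (D : GaussDiagram n)

theorem T_sum {ι : Type*} (t : Finset ι) (a : ι → ℤ) :
    (T (∑ i ∈ t, a i) : LaurentPolynomial ℤ) = ∏ i ∈ t, T (a i) := by
  classical
  induction t using Finset.induction_on with
  | empty => simp
  | insert x t hx ih => rw [Finset.sum_insert hx, Finset.prod_insert hx, T_add, ih]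

theorem bracket_eq (hn : 0 < n) : D.bracket = GaussJones.bracket D.pos D.sign := by
  unfold GaussDiagram.bracket GaussJones.bracket
  refine Fintype.sum_equiv
    ⟨fun s c => s c == D.sign c, fun s c => s c == D.sign c, ?_, ?_⟩ _ _ ?_
  · intro s
    funext c
    show ((s c == D.sign c) == D.sign c) = s c
    cases s c <;> cases D.sign c <;> rfl
  · intro s
    funext c
    show ((s c == D.sign c) == D.sign c) = s c
    cases s c <;> cases D.sign c <;> rfl
  · intro s
    rw [D.comps_eq_loops hn]
    have h1 : (-T 2 - T (-2) : LaurentPolynomial ℤ) = -(T 2 + T (-2)) := by ring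
    rw [h1]
    congr 1
    unfold stateSign
    rw [T_sum]
    apply Finset.prod_congr rfl
    intro c _
    show T (if s c = true then (1 : ℤ) else -1) =
      if (s c == D.sign c) = D.sign c then (T 1 : LaurentPolynomial ℤ) else T (-1)
    cases s c <;> cases D.sign c <;> rfl

theorem norm_eq : ((-1) ^ D.writhe.natAbs * T (-3 * D.writhe) : LaurentPolynomial ℤ) =
    ∏ i, if D.sign i = true then -T (-3) else -T 3 := by
  have h1 : (T (-3 * D.writhe) : LaurentPolynomial ℤ) =
      ∏ c : Fin n, T (if D.sign c = true then (-3 : ℤ) else 3) := by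
    unfold writhe
    rw [Finset.mul_sum, T_sum]
    apply Finset.prod_congr rfl
    intro c _
    cases D.sign c <;> rfl
  have h2 : ∀ (t : Finset (Fin n)),
      ((-1 : LaurentPolynomial ℤ) ^ (∑ c ∈ t, if D.sign c = true then (1 : ℤ) else -1).natAbs) =
      ∏ c ∈ t, (-1 : LaurentPolynomial ℤ) := by
    intro t
    rw [Finset.prod_const]
    have h3 : ((∑ c ∈ t, if D.sign c = true then (1 : ℤ) else -1).natAbs) % 2 = t.card % 2 := by
      classical
      induction t using Finset.induction_on with
      | empty => simp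
      | insert x t hx ih =>
        rw [Finset.sum_insert hx, Finset.card_insert_of_notMem hx]
        split_ifs <;> omega
    rcases Nat.even_or_odd t.card with he | ho
    · have : Even (∑ c ∈ t, if D.sign c = true then (1 : ℤ) else -1).natAbs := by
        rw [Nat.even_iff] at he ⊢
        omega
      rw [this.neg_one_pow, he.neg_one_pow]
    · have : Odd (∑ c ∈ t, if D.sign c = true then (1 : ℤ) else -1).natAbs := by
        rw [Nat.odd_iff] at ho ⊢
        omega
      rw [this.neg_one_pow, ho.neg_one_pow]
  rw [h1, writhe, h2, ← Finset.prod_mul_distrib]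
  apply Finset.prod_congr rfl
  intro c _
  cases D.sign c <;> simp

theorem normalizedBracket_eq (hn : 0 < n) : D.normalizedBracket = fPoly D.pos D.sign := by
  unfold normalizedBracket fPoly
  rw [D.norm_eq, D.bracket_eq hn]

theorem joined_switch (e s : Fin n → Bool) (p q : Fin (2 * n))
    (h : GaussJones.Joined (D.switch e).pos s p q) :
    GaussJones.Joined D.pos s p q ∨ GaussJones.Joined D.pos s q p := by
  unfold GaussJones.Joined at h ⊢
  have h0 : ∀ c b, (D.switch e).pos (c, b) = D.pos (c, b ^^ e c) := fun _ _ => rfl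
  have h1 : ∀ c b, inEdge (D.switch e).pos (c, b) = inEdge D.pos (c, b ^^ e c) := fun _ _ => rfl
  have h2 : ∀ c b, outEdge (D.switch e).pos (c, b) = outEdge D.pos (c, b ^^ e c) :=
    fun _ _ => rfl
  obtain ⟨c, h⟩ := h
  simp only [h1, h2] at h
  rcases Bool.eq_false_or_eq_true (e c) with hc | hc
  · simp only [hc, Bool.false_xor, Bool.true_xor, Bool.not_true] at h
    rcases h with ⟨h3, ⟨h4, h5⟩ | ⟨h4, h5⟩⟩ | ⟨h3, ⟨h4, h5⟩ | ⟨h4, h5⟩⟩
    · exact Or.inl ⟨c, Or.inl ⟨h3, Or.inr ⟨h4, h5⟩⟩⟩
    · exact Or.inl ⟨c, Or.inl ⟨h3, Or.inl ⟨h4, h5⟩⟩⟩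
    · exact Or.inr ⟨c, Or.inr ⟨h3, Or.inl ⟨h5, h4⟩⟩⟩
    · exact Or.inr ⟨c, Or.inr ⟨h3, Or.inr ⟨h5, h4⟩⟩⟩
  · simp only [hc, Bool.xor_false] at h
    exact Or.inl ⟨c, h⟩

theorem switch_switch (e : Fin n → Bool) : ((D.switch e).switch e).pos = D.pos := by
  apply Equiv.ext
  rintro ⟨c, b⟩
  show D.pos (c, (b ^^ e c) ^^ e c) = D.pos (c, b)
  simp

theorem loops_switch (e s : Fin n → Bool) :
    GaussJones.loops (D.switch e).pos s = GaussJones.loops D.pos s := by
  have key : ∀ (D : GaussDiagram n) (p q : Fin (2 * n)), GaussJones.Joined (D.switch e).pos s p q →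
      Quot.mk (GaussJones.Joined D.pos s) p = Quot.mk (GaussJones.Joined D.pos s) q := by
    intro D p q h
    rcases D.joined_switch e s p q h with h | h
    · exact Quot.sound h
    · exact (Quot.sound h).symm
  have key2 : ∀ (p q : Fin (2 * n)), GaussJones.Joined D.pos s p q →
      Quot.mk (GaussJones.Joined (D.switch e).pos s) p =
        Quot.mk (GaussJones.Joined (D.switch e).pos s) q := by
    intro p q h
    apply key (D.switch e) p q
    rw [D.switch_switch e]
    exact h
  unfold GaussJones.loops
  refine Nat.card_congr ⟨Quot.lift (fun p => Quot.mk _ p) (key D),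
    Quot.lift (fun p => Quot.mk _ p) key2, ?_, ?_⟩
  · intro y
    induction y using Quot.ind with
    | _ p => rfl
  · intro y
    induction y using Quot.ind with
    | _ p => rfl

theorem fPoly_switch (e s : Fin n → Bool) : fPoly (D.switch e).pos s = fPoly D.pos s := by
  unfold fPoly GaussJones.bracket
  simp only [D.loops_switch e]

/-- The normalised bracket of the diagram with changed crossings. -/
theorem normalizedBracket_switch (hn : 0 < n) (e : Fin n → Bool) :
    (D.switch e).normalizedBracket = fPoly D.pos (fun c => D.sign c ^^ e c) := by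
  rw [normalizedBracket_eq _ hn, fPoly_switch]
  rfl

end GaussDiagram

end Pool.Agent.Helper16.Knotoid
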