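import Pool.Agent.Helper95.KN.Count
import Pool.Agent.Helper96.GJ.Main

set_option autoImplicit false

/-! Almost all crossing choices of a knotoid shadow have a nontrivial normalised bracket. -/

namespace Pool.Agent.Helper16.Knotoid

open LaurentPolynomial Pool.Agent.GaussJones

namespace GaussDiagram

theorem almost_all : ∃ C : ℝ, ∀ (n : ℕ) (D : GaussDiagram n), 0 < n → Reduced D.pos →
    ∃ S₀ : Finset (Fin n), twistRegions D.pos ≤ 5 * S₀.card ∧
      ∀ (S : Finset (Fin n)) (e₀ : Fin n → Bool) (P : LaurentPolynomial ℤ), S₀ ⊆ S →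
        (Nat.card {e : Fin n → Bool // (∀ i ∉ S, e i = e₀ i) ∧
          (D.switch e).normalizedBracket = P} : ℝ) ≤
          C * ((1 + Real.log (twistRegions D.pos)) / twistRegions D.pos) ^ (1 / 4 : ℝ) *
            2 ^ S.card := by
  obtain ⟨C, hC⟩ := GaussJones.main
  refine ⟨C, fun n D hn hD => ?_⟩
  obtain ⟨S₀, h1, h2⟩ := hC n D.pos hn hD
  refine ⟨S₀, h1, fun S e₀ P hS => ?_⟩
  have h3 := h2 S (fun i => D.sign i ^^ e₀ i) P hS
  have h4 : Nat.card {e : Fin n → Bool // (∀ i ∉ S, e i = e₀ i) ∧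
      (D.switch e).normalizedBracket = P} =
      Nat.card {e : Fin n → Bool // (∀ i ∉ S, e i = (D.sign i ^^ e₀ i)) ∧
        fPoly D.pos e = P} := by
    refine Nat.card_congr ⟨fun e => ⟨fun i => D.sign i ^^ e.1 i, fun i hi => ?_,
      by rw [← D.normalizedBracket_switch hn]; exact e.2.2⟩,
      fun e => ⟨fun i => D.sign i ^^ e.1 i, fun i hi => ?_, ?_⟩, ?_, ?_⟩
    · show (D.sign i ^^ e.1 i) = (D.sign i ^^ e₀ i)
      rw [e.2.1 i hi]
    · show (D.sign i ^^ e.1 i) = e₀ i
      rw [e.2.1 i hi]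
      cases D.sign i <;> cases e₀ i <;> rfl
    · rw [D.normalizedBracket_switch hn]
      have h5 : (fun c => D.sign c ^^ (D.sign c ^^ e.1 c)) = e.1 := by
        funext c
        cases D.sign c <;> cases e.1 c <;> rfl
      rw [h5]
      exact e.2.2
    · rintro ⟨e, he⟩
      apply Subtype.ext
      funext c
      show (D.sign c ^^ (D.sign c ^^ e c)) = e c
      cases D.sign c <;> cases e c <;> rfl
    · rintro ⟨e, he⟩
      apply Subtype.ext
      funext c
      show (D.sign c ^^ (D.sign c ^^ e c)) = e c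
      cases D.sign c <;> cases e c <;> rfl
  rw [h4]
  exact h3

end GaussDiagram

end Pool.Agent.Helper16.Knotoid
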