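import Pool.Agent.Helper16.Knotoid.Region
import Pool.Agent.Helper96.GJ.Defs

set_option autoImplicit false

/-! Crossing changes of a knotoid diagram; the normalised bracket of a knotoid diagram is the
polynomial `fPoly` of the Gauss code closed up cyclically (virtual closure). -/

namespace Pool.Agent.Helper16.Knotoid

open LaurentPolynomial

namespace GaussDiagram

variable {n : ℕ} (D : GaussDiagram n)

/-- Exchange over and under at the crossings `c` with `e c = true`. -/
def passFlip (e : Fin n → Bool) : Fin n × Bool ≃ Fin n × Bool where
  toFun x := (x.1, x.2 ^^ e x.1)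
  invFun x := (x.1, x.2 ^^ e x.1)
  left_inv x := by simp
  right_inv x := by simp

/-- `D.switch e` is obtained from `D` by changing the crossings `c` with `e c = true`: over- and
under-passage are exchanged and the sign is reversed. -/
def switch (e : Fin n → Bool) : GaussDiagram n where
  pos := (passFlip e).trans D.pos
  sign c := D.sign c ^^ e c

theorem switch_overPass (e : Fin n → Bool) (c : Fin n) :
    (D.switch e).overPass c = D.pos (c, !(e c)) := by
  show D.pos (c, true ^^ e c) = _
  simp

theorem switch_underPass (e : Fin n → Bool) (c : Fin n) :
    (D.switch e).underPass c = D.pos (c, e c) := by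
  show D.pos (c, false ^^ e c) = _
  simp

theorem switch_fst (e : Fin n → Bool) (c : Fin n) : (D.switch e).fst c = D.fst c := by
  show D.pos (c, (D.sign c ^^ e c) ^^ e c) = D.pos (c, D.sign c)
  simp

theorem switch_snd (e : Fin n → Bool) (c : Fin n) : (D.switch e).snd c = D.snd c := by
  show D.pos (c, (!(D.sign c ^^ e c)) ^^ e c) = D.pos (c, !D.sign c)
  congr 2
  cases D.sign c <;> cases e c <;> rfl

theorem switch_odd (e : Fin n → Bool) (c : Fin n) :
    (D.switch e).OddCrossing c ↔ D.OddCrossing c := by
  unfold OddCrossing
  rw [switch_overPass, switch_underPass]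
  unfold overPass underPass
  cases e c
  · rfl
  · simp only [Bool.not_true]
    rw [min_comm, max_comm]

end GaussDiagram

end Pool.Agent.Helper16.Knotoid
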